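import Pool.Agent.Helper41.ALX.HopfH

/-!
# Alexandrov's theorem for hypersurfaces invariant under the Hopf action (MP_b769bb_gt)

`CMC g ρ H`: `ρ < 0` is a nonempty relatively compact domain of the unit ball whose boundary `ρ = 0` is a regular
hypersurface of constant mean curvature `H` for the metric `g`; it is not assumed to be connected. `IsRound ρ`: `ρ < 0` is a
ball about the origin and `ρ = 0` is its sphere, a geodesic sphere.

(1) Complex hyperbolic space `ℂHⁿ`, the unit ball of `ℂⁿ` with the Bergman metric, and the circle of isometries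
`z ↦ exp (i θ) z`.
(2) Quaternionic hyperbolic space `ℍHⁿ⁺¹`, the unit ball of `ℍⁿ⁺¹` with the metric given by the same formula, and the maps
`z ↦ z q`, `|q| = 1`.
(3) The general form: `P` is any field of projections as in `Vertical`, and `P ∇ρ = 0`. For the Cayley hyperbolic plane `𝕆H²`
take for `P z` the projection on the tangent space of the fibre of the Hopf fibration.
-/

set_option autoImplicit false

namespace Pool.Agent.Results.MP_b769bb_gt.HopfInvariant

open Quaternion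

section
variable {E : Type} [NormedAddCommGroup E] [InnerProductSpace ℝ E] [FiniteDimensional ℝ E]

/-- The Euclidean divergence of a vector field. -/
noncomputable def divg (v : E → E) (z : E) : ℝ :=
  LinearMap.trace ℝ E (fderiv ℝ v z : E →ₗ[ℝ] E)

/-- The mean curvature at `z` of the level set of `ρ` through `z` for the Riemannian metric `(u, v) ↦ ⟪g z u, v⟫`:
the divergence (for this metric) of the unit normal field `∇ρ / |∇ρ|`, i.e. the trace of the shape operator. -/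
noncomputable def meanCurv (g : E → E →L[ℝ] E) (ρ : E → ℝ) (z : E) : ℝ :=
  (√(LinearMap.det (g z : E →ₗ[ℝ] E)))⁻¹ *
    divg (fun y => (√(LinearMap.det (g y : E →ₗ[ℝ] E)) /
      √(inner ℝ (gradient ρ y) ((g y).inverse (gradient ρ y)))) •
        (g y).inverse (gradient ρ y)) z

/-- The set `ρ < 0` is a nonempty relatively compact domain of the unit ball, and its boundary `ρ = 0` is a regular
hypersurface of class `C³` which has constant mean curvature `H` for the metric `g`. -/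
structure CMC (g : E → E →L[ℝ] E) (ρ : E → ℝ) (H : ℝ) : Prop where
  smooth : ContDiffOn ℝ 3 ρ (Metric.ball 0 1)
  bounded : ∃ R : ℝ, R < 1 ∧ ∀ z ∈ Metric.ball (0 : E) 1, ρ z ≤ 0 → ‖z‖ ≤ R
  nonempty : ∃ z ∈ Metric.ball (0 : E) 1, ρ z < 0
  regular : ∀ z ∈ Metric.ball (0 : E) 1, ρ z = 0 → gradient ρ z ≠ 0
  curvature : ∀ z ∈ Metric.ball (0 : E) 1, ρ z = 0 → meanCurv g ρ z = H

/-- In the unit ball, the set `ρ < 0` is a ball about the origin and `ρ = 0` is its sphere. -/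
def IsRound (ρ : E → ℝ) : Prop :=
  ∃ R : ℝ, 0 < R ∧ R < 1 ∧ {z ∈ Metric.ball (0 : E) 1 | ρ z < 0} = Metric.ball 0 R ∧
    {z ∈ Metric.ball (0 : E) 1 | ρ z = 0} = Metric.sphere 0 R

/-- `P z` is an orthogonal projection which is zero at `z`, of rank `a` for `z ≠ 0`. -/
structure Vertical (a : ℕ) (P : E → E →L[ℝ] E) : Prop where
  symm : ∀ z u v, inner ℝ (P z u) v = inner ℝ u (P z v)
  idem : ∀ z u, P z (P z u) = P z u
  radial : ∀ z, P z z = 0
  rank : ∀ z, z ≠ 0 → Module.finrank ℝ (LinearMap.range (P z : E →ₗ[ℝ] E)) = a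

/-- `g` is the metric `v / (1 - |z|²) + (⟪z, v⟫ z + |z|² P z v) / (1 - |z|²)²`. -/
def IsBallMetric (P g : E → E →L[ℝ] E) : Prop :=
  ∀ z v, g z v = (1 - ‖z‖ ^ 2)⁻¹ • v +
    ((1 - ‖z‖ ^ 2) ^ 2)⁻¹ • (inner ℝ z v • z + ‖z‖ ^ 2 • P z v)

/-- `ρ` has no vertical derivative: `P z` is zero at the gradient. -/
def NoVertical (P : E → E →L[ℝ] E) (ρ : E → ℝ) : Prop :=
  ∀ z ∈ Metric.ball (0 : E) 1, P z (gradient ρ z) = 0

end

section
variable {E : Type} [NormedAddCommGroup E] [InnerProductSpace ℂ E]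

/-- `g` is the Bergman metric `v / (1 - |z|²) + ⟨z, v⟩ z / (1 - |z|²)²` of the unit ball of `E = ℂⁿ`. -/
def IsBergman [InnerProductSpace ℝ E] (g : E → E →L[ℝ] E) : Prop :=
  ∀ z v, g z v = (1 - ‖z‖ ^ 2)⁻¹ • v + ((1 - ‖z‖ ^ 2) ^ 2)⁻¹ • (inner ℂ z v • z)

/-- `ρ` is invariant under the circle of isometries `z ↦ exp (i θ) z`. -/
def CircleInvariant (ρ : E → ℝ) : Prop :=
  ∀ z ∈ Metric.ball (0 : E) 1, ∀ θ : ℝ, ρ (Complex.exp (θ * Complex.I) • z) = ρ z

end

section
variable {E : Type} [NormedAddCommGroup E] [InnerProductSpace ℝ E] {n : ℕ}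
  (c : E ≃ (Fin (n + 1) → ℍ[ℝ]))

/-- `g` is the metric `v / (1 - |z|²) + z ⟨z, v⟩ / (1 - |z|²)²`, `⟨z, v⟩ = ∑ star z_j v_j`, of the unit ball of
`E = ℍⁿ⁺¹`; `z_j = c z j` are the coordinates of `z`. -/
def IsQuaternionic (g : E → E →L[ℝ] E) : Prop :=
  ∀ z v i, c (g z v) i = (1 - ‖z‖ ^ 2)⁻¹ • c v i +
    ((1 - ‖z‖ ^ 2) ^ 2)⁻¹ • (c z i * ∑ j, star (c z j) * c v j)

/-- `ρ` is invariant under the maps `z ↦ z q = (z₀ q, …, z_n q)`, `|q| = 1`. -/
def SphereInvariant (ρ : E → ℝ) : Prop :=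
  ∀ z ∈ Metric.ball (0 : E) 1, ∀ q : ℍ[ℝ], ‖q‖ = 1 → ρ (c.symm (fun i => c z i * q)) = ρ z

end

/-- The quaternionic space `ℍⁿ⁺¹` with its real inner product. -/
abbrev HV (n : ℕ) := PiLp 2 (fun _ : Fin (n + 1) => ℍ[ℝ])

/-- The coordinates on `ℍⁿ⁺¹`. -/
abbrev coord (n : ℕ) : HV n ≃ (Fin (n + 1) → ℍ[ℝ]) := WithLp.equiv 2 _

theorem result :
    -- (1) complex hyperbolic space, invariance under `z ↦ exp (i θ) z`
    (∀ (n : ℕ)
      (g : EuclideanSpace ℂ (Fin n) → EuclideanSpace ℂ (Fin n) →L[ℝ] EuclideanSpace ℂ (Fin n))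
      (ρ : EuclideanSpace ℂ (Fin n) → ℝ) (H : ℝ),
      1 ≤ n → IsBergman g → CMC g ρ H → CircleInvariant ρ → IsRound ρ) ∧
    -- (2) quaternionic hyperbolic space, invariance under `z ↦ z q`, `|q| = 1`
    (∀ (n : ℕ) (g : HV n → HV n →L[ℝ] HV n) (ρ : HV n → ℝ) (H : ℝ),
      IsQuaternionic (coord n) g → CMC g ρ H → SphereInvariant (coord n) ρ → IsRound ρ) ∧
    -- (3) the general form
    (∀ (E : Type) [NormedAddCommGroup E] [InnerProductSpace ℝ E] [FiniteDimensional ℝ E]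
      [Nontrivial E] (a : ℕ) (P g : E → E →L[ℝ] E) (ρ : E → ℝ) (H : ℝ),
      0 < a → Vertical a P → IsBallMetric P g → CMC g ρ H → NoVertical P ρ → IsRound ρ) := by
  refine ⟨fun n g ρ H hn hg hc hinv => ?_, fun n g ρ H hg hc hinv => ?_,
    fun E _ _ _ _ a P g ρ H ha hP hg hc hv => ?_⟩
  · haveI : Nonempty (Fin n) := ⟨⟨0, hn⟩⟩
    exact Pool.Agent.Helper41.ALX.hopf_general (by norm_num)
      (Pool.Agent.Helper41.ALX.vertical_PC n) (Pool.Agent.Helper41.ALX.bergman_metric hg) hc.smooth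
      hc.bounded hc.nonempty hc.regular hc.curvature
      (Pool.Agent.Helper41.ALX.circle_vertical hc.smooth hinv)
  · exact Pool.Agent.Helper41.ALX.hopf_general (by norm_num)
      (Pool.Agent.Helper75.ROT.PH_vertical n) (Pool.Agent.Helper75.ROT.quat_metric hg) hc.smooth
      hc.bounded hc.nonempty hc.regular hc.curvature
      (Pool.Agent.Helper41.ALX.sphere_vertical hc.smooth hinv)
  · exact Pool.Agent.Helper41.ALX.hopf_general ha ⟨hP.symm, hP.idem, hP.radial, hP.rank⟩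
      (Pool.Agent.Helper41.ALX.ballMetric_eq hg) hc.smooth hc.bounded hc.nonempty hc.regular
      hc.curvature hv

end Pool.Agent.Results.MP_b769bb_gt.HopfInvariant
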