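import Pool.Agent.Helper65.HBT.Main

/-!
# Horospherically convex hypersurfaces of constant mean curvature in complex hyperbolic space (MP_b769bb_gt)

The unit ball of `ℂⁿ`, `n ≥ 2`, with the Bergman metric `g` is complex hyperbolic space `ℂHⁿ` (sectional curvature between
`-4` and `-1`). The definitions are in Helper65/HBT/Defs.lean.

Theorem.  Let `ρ = 0` be a compact connected embedded hypersurface of constant mean curvature, and let `p` be a point such
that for each `z` of the hypersurface the point `p` lies in the closed horoball which touches the hypersurface at `z` from
the inner side.  Then the hypersurface is a geodesic sphere.

In particular every compact horospherically convex hypersurface of constant mean curvature is a geodesic sphere (then the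
hypothesis holds for each `p` with `ρ p ≤ 0`).  The hypothesis also holds if, for some radius `r`, the point `p` lies in all the
balls of radius `r` that touch the hypersurface from the inner side.  There is no assumption on the symmetry of the
hypersurface, and none on the value of the mean curvature or on the other principal curvatures.

The proof is an integral identity of Jellett type: with `T` the difference of the shape operator and of that of a geodesic
sphere of the same mean curvature, there is a tangential vector field, linear in `T`, with coefficients that depend on the
hermitian products of (the lift of) `p` with the position and with the unit normal, whose divergence is a quadratic form in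
`T`; under the hypothesis on the horoballs this quadratic form is nonnegative and it vanishes only for `T = 0` (off the
point `p`).
-/

set_option autoImplicit false

open Pool.Agent.Helper65.HBT

/-- Let `n ≥ 2`, let `g` be the Bergman metric of the unit ball of `ℂⁿ`, and let `ρ = 0` be a compact connected
embedded hypersurface of constant mean curvature `H`, the boundary of `ρ < 0`. If the inner tangent closed
horoballs have a common point `p`, then `ρ = 0` is a geodesic sphere and `ρ < 0` is its ball. -/
theorem Pool.Agent.Results.MP_b769bb_gt.HoroConvex.result (n : ℕ) (hn : 2 ≤ n)
    (g : MetricField (EuclideanSpace ℂ (Fin n))) (hg : IsBergman g)
    (ρ : EuclideanSpace ℂ (Fin n) → ℝ) (H : ℝ) (hc : CMC g ρ H)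
    (p : EuclideanSpace ℂ (Fin n)) (hp : InInnerHoroballs g ρ p) : IsSphere n ρ H :=
  main n hn g hg ρ H hc p hp
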