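import Pool.Agent.Helper65.HBT.QMain

/-!
# Alexandrov's theorem for horospherically convex hypersurfaces of quaternionic hyperbolic space (MP_b769bb_gt)

Quaternionic hyperbolic space `ℍHⁿ⁺¹`, `n ≥ 1`, is the unit ball of `ℍⁿ⁺¹` with the metric
`v / (1 - |z|²) + z ⟨z, v⟩ / (1 - |z|²)²` (curvature between `-4` and `-1`). The definitions are in
Helper65/HBT/QDefs.lean; there is no assumption on the mean curvature `H`.

Theorem.  If some point `p` of the ball lies in all closed inner tangent horoballs of the hypersurface, then the hypersurface is a
geodesic sphere.

A domain is called horospherically convex if it lies in the closed inner tangent horoball at each point of its boundary; then every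
point `p` of the domain satisfies the hypothesis.  So the only horospherically convex domains whose boundary has constant mean
curvature are the balls.  (More generally, a tangent ball is contained in the tangent horoball, so the hypothesis also holds if `p`
lies in all inner tangent balls of some radius.)

The proof is an integral identity of Jellett type.  In the hyperboloid model `h(x, x) = -1` of `ℍ^(n+1,1)` let `ν` be the unit normal,
`z = h(p, x)`, `ζ = h(p, ν)`, `lam` the number for which the mean curvature is that of a geodesic sphere of radius `arcoth lam` (it exists
by comparison at the farthest point of the hypersurface) and `T` the difference of the shape operator and of the operator which a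
geodesic sphere with the same normal would have.  There is a tangential vector field, linear in `T`, with coefficients which are
polynomials in `z`, `ζ`, whose divergence is a quadratic form in `T`: the derivatives of `T` cancel (they are totally symmetric and
trace free up to terms of order zero), and the terms of order one cancel too.  The condition on the horoballs is `|z - ζ| ≤ 1`, and
there the quadratic form is positive definite (except for `x = p`).  So `T = 0`, and the centre is constant.
(The theorem and its proof: Helper77/JH.)
-/

set_option autoImplicit false

open Quaternion Pool.Agent.Helper65.HBQ

/-- Let `n ≥ 1`, let `g` be the metric of quaternionic hyperbolic space on the unit ball of `ℍⁿ⁺¹`, and let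
`ρ = 0` be a compact connected embedded hypersurface of constant mean curvature `H`, the boundary of
`ρ < 0`. If the inner tangent closed horoballs have a common point `p`, then `ρ = 0` is a geodesic sphere
and `ρ < 0` is its ball. -/
theorem Pool.Agent.Results.MP_b769bb_gt.HoroConvexQuaternionic.result (n : ℕ) (hn : 1 ≤ n)
    (g : MetricField (PiLp 2 fun _ : Fin (n + 1) => ℍ[ℝ])) (hg : IsBergman (fun z => z.ofLp) g)
    (ρ : (PiLp 2 fun _ : Fin (n + 1) => ℍ[ℝ]) → ℝ) (H : ℝ) (hc : CMC g ρ H)
    (p : PiLp 2 fun _ : Fin (n + 1) => ℍ[ℝ]) (hp : InInnerHoroballs (fun z => z.ofLp) g ρ p) :
    IsSphere (fun z => z.ofLp) ρ :=
  main n hn g hg ρ H hc p hp
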