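import Pool.Agent.Helper75.ROT.Crisp

/-!
# Alexandrov's theorem for hypersurfaces invariant under the rotations about a line (MP_b769bb_gt)

(1) Complex hyperbolic space `ℂHⁿ`, the unit ball of `ℂⁿ` with the Bergman metric.  A compact connected embedded
hypersurface `ρ = 0` of constant mean curvature which is invariant under the circle of rotations
`⟨e, z⟩ e + exp (i θ) (z - ⟨e, z⟩ e)` about a complex geodesic (the intersection of the ball with the complex line of the
unit vector `e`) is a geodesic sphere with centre `a` on this geodesic.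

(2) Quaternionic hyperbolic space `ℍHⁿ⁺¹`, the unit ball of `ℍⁿ⁺¹` with the metric given by the same formula, and the maps
`(z₀, z₁ q, .., z_n q)`, `|q| = 1`.  (They are not isometries; every hypersurface that is invariant under the isometries
`(z₀, U (z₁, .., z_n))`, `U` in `Sp(n)`, is invariant under them.)
-/

set_option autoImplicit false

namespace Pool.Agent.Results.MP_b769bb_gt.SymmetricAboutLine

open Quaternion

section
variable {E : Type} [NormedAddCommGroup E] [InnerProductSpace ℝ E] [FiniteDimensional ℝ E]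

/-- The Euclidean divergence of a vector field. -/
noncomputable def divg (v : E → E) (z : E) : ℝ :=
  LinearMap.trace ℝ E (fderiv ℝ v z : E →ₗ[ℝ] E)

/-- The mean curvature at `z` of the level set of `ρ` through `z` for the Riemannian metric `(u, v) ↦ ⟪g z u, v⟫`:
the divergence (for this metric) of the unit normal field `∇ρ / |∇ρ|`, i.e. the trace of the shape operator. -/
noncomputable def meanCurv (g : E → E →L[ℝ] E) (ρ : E → ℝ) (z : E) : ℝ :=
  (√(LinearMap.det (g z : E →ₗ[ℝ] E)))⁻¹ *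
    divg (fun y => (√(LinearMap.det (g y : E →ₗ[ℝ] E)) /
      √(inner ℝ (gradient ρ y) ((g y).inverse (gradient ρ y)))) •
        (g y).inverse (gradient ρ y)) z

/-- The set `ρ < 0` is a nonempty relatively compact domain of the unit ball, and its boundary `ρ = 0` is a connected
regular hypersurface of class `C³` which has constant mean curvature `H` for the metric `g`. -/
structure CMC (g : E → E →L[ℝ] E) (ρ : E → ℝ) (H : ℝ) : Prop where
  smooth : ContDiffOn ℝ 3 ρ (Metric.ball 0 1)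
  bounded : ∃ R : ℝ, R < 1 ∧ ∀ z ∈ Metric.ball (0 : E) 1, ρ z ≤ 0 → ‖z‖ ≤ R
  nonempty : ∃ z ∈ Metric.ball (0 : E) 1, ρ z < 0
  connected : IsPreconnected {z ∈ Metric.ball (0 : E) 1 | ρ z = 0}
  regular : ∀ z ∈ Metric.ball (0 : E) 1, ρ z = 0 → gradient ρ z ≠ 0
  curvature : ∀ z ∈ Metric.ball (0 : E) 1, ρ z = 0 → meanCurv g ρ z = H

/-- `ρ < 0` is the geodesic ball `c z < R` and `ρ = 0` its sphere, `c z` being `cosh²` of the distance of `z` from the
centre. -/
def IsSphere (c : E → ℝ) (ρ : E → ℝ) : Prop :=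
  ∃ R : ℝ, 1 < R ∧ ∀ z ∈ Metric.ball (0 : E) 1, (ρ z < 0 ↔ c z < R) ∧ (ρ z = 0 ↔ c z = R)

end

section
variable {E : Type} [NormedAddCommGroup E] [InnerProductSpace ℂ E]

/-- The rotation by the angle `θ` about the complex line of the unit vector `e`. -/
noncomputable def rotC (e : E) (θ : ℝ) (z : E) : E :=
  inner ℂ e z • e + Complex.exp (θ * Complex.I) • (z - inner ℂ e z • e)

/-- `cosh²` of the distance of `a` and `z` in complex hyperbolic space. -/
noncomputable def coshSq (a z : E) : ℝ :=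
  ‖1 - inner ℂ a z‖ ^ 2 / ((1 - ‖z‖ ^ 2) * (1 - ‖a‖ ^ 2))

/-- `g` is the Bergman metric `v / (1 - |z|²) + ⟨z, v⟩ z / (1 - |z|²)²` of the unit ball of `E = ℂⁿ`. -/
def IsBergman [InnerProductSpace ℝ E] (g : E → E →L[ℝ] E) : Prop :=
  ∀ z v, g z v = (1 - ‖z‖ ^ 2)⁻¹ • v + ((1 - ‖z‖ ^ 2) ^ 2)⁻¹ • (inner ℂ z v • z)

end

section
variable {E : Type} [NormedAddCommGroup E] [InnerProductSpace ℝ E] {n : ℕ}
  (c : E ≃ (Fin (n + 1) → ℍ[ℝ]))

/-- `g` is the metric `v / (1 - |z|²) + z ⟨z, v⟩ / (1 - |z|²)²`, `⟨z, v⟩ = ∑ star z_j v_j`, of the unit ball of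
`E = ℍ^(n+1)`.  Here and in the next two definitions `z_j = c z j` are the coordinates of `z`. -/
def IsQuaternionic (g : E → E →L[ℝ] E) : Prop :=
  ∀ z v i, c (g z v) i = (1 - ‖z‖ ^ 2)⁻¹ • c v i +
    ((1 - ‖z‖ ^ 2) ^ 2)⁻¹ • (c z i * ∑ j, star (c z j) * c v j)

/-- The map `(z₀, z₁ q, .., z_n q)`. -/
noncomputable def rotH (q : ℍ[ℝ]) (z : E) : E :=
  c.symm (fun i => if i = 0 then c z i else c z i * q)

/-- `cosh²` of the distance of `(α, 0, .., 0)` and `z` in quaternionic hyperbolic space. -/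
noncomputable def coshSqH (α : ℍ[ℝ]) (z : E) : ℝ :=
  ‖1 - star α * c z 0‖ ^ 2 / ((1 - ‖z‖ ^ 2) * (1 - ‖α‖ ^ 2))

end

/-- The quaternionic space `ℍ^(n+1)` with its real inner product. -/
abbrev HV (n : ℕ) := PiLp 2 (fun _ : Fin (n + 1) => ℍ[ℝ])

/-- The coordinates on `ℍ^(n+1)`. -/
abbrev coord (n : ℕ) : HV n ≃ (Fin (n + 1) → ℍ[ℝ]) := WithLp.equiv 2 _

theorem result :
    -- (1) complex hyperbolic space
    (∀ (n : ℕ)
      (g : EuclideanSpace ℂ (Fin n) → EuclideanSpace ℂ (Fin n) →L[ℝ] EuclideanSpace ℂ (Fin n)),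
      IsBergman g → ∀ e : EuclideanSpace ℂ (Fin n), ‖e‖ = 1 →
      ∀ (ρ : EuclideanSpace ℂ (Fin n) → ℝ) (H : ℝ), CMC g ρ H →
      (∀ z ∈ Metric.ball 0 1, ∀ θ : ℝ, ρ (rotC e θ z) = ρ z) →
      ∃ α : ℂ, ‖α‖ < 1 ∧ IsSphere (coshSq (α • e)) ρ) ∧
    -- (2) quaternionic hyperbolic space
    (∀ (n : ℕ) (g : HV n → HV n →L[ℝ] HV n), IsQuaternionic (coord n) g →
      ∀ (ρ : HV n → ℝ) (H : ℝ), CMC g ρ H →
      (∀ z ∈ Metric.ball 0 1, ∀ q : ℍ[ℝ], ‖q‖ = 1 → ρ (rotH (coord n) q z) = ρ z) →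
      ∃ α : ℍ[ℝ], ‖α‖ < 1 ∧ IsSphere (coshSqH (coord n) α) ρ) :=
  ⟨fun _ _ hg _ he _ _ hc hinv => Pool.Agent.Helper75.ROT.complex_crisp hg he hc.smooth hinv
    hc.bounded hc.nonempty hc.connected hc.regular hc.curvature,
  fun _ _ hg _ _ hc hinv => Pool.Agent.Helper75.ROT.quaternionic_crisp hg hc.smooth hinv
    hc.bounded hc.nonempty hc.connected hc.regular hc.curvature⟩

end Pool.Agent.Results.MP_b769bb_gt.SymmetricAboutLine
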